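import Mathlib
import Pool.Agent.KS6_79.BX.Hard

/-!
# BOXICITY is NP-hard on graphs of treewidth nine, already for boxicity three

A reduction from bin packing. The graphs consist of eight vertices and disjoint paths. In one of the
three dimensions the paths of the items alternate between two incompatible positions, so that each
of their vertices uses up a vertex of the path of the frame.
-/

set_option autoImplicit false

namespace Pool.Agent.Results.MP_33ea09_lc.DimensionThree

open Pool.Agent.NPC Pool.Agent.H692R2 Pool.Agent.TH656.Bx Pool.Agent.Y605.BX

/-- Let `d ≥ 3` be a fixed dimension. Every language `L` in NP has a polynomial-time reduction to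
graphs that become disjoint unions of paths when `2 d + 2` vertices are deleted (so their feedback
vertex number is at most `2 d + 2`, their pathwidth and their treewidth are at most `2 d + 3`), such
that the boxicity is equal to `d` for the members of `L` and equal to `d + 1` for all other words.
Hence it is NP-hard to decide whether the boxicity of such graphs is at most `d`. In particular
BOXICITY is NP-hard on graphs of treewidth at most `t` for every `t ≥ 9`, with `d = 3` fixed. -/
theorem result : ∀ d : ℕ, 3 ≤ d →
    (∀ L : Set (List Bool), InNP L → ∃ f : List Bool → FinGraph, PolyTime (fun x => bits (f x)) ∧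
      ∀ x, NearPaths (f x).graph (2 * d + 2) ∧ pathwidth (f x).graph ≤ 2 * d + 3 ∧
        treewidth (f x).graph ≤ 2 * d + 3 ∧ (x ∈ L → boxicity (f x).graph = d) ∧
        (x ∉ L → boxicity (f x).graph = d + 1)) ∧
    (∀ k : ℕ, 2 * d + 2 ≤ k →
      NPHardP (fun G : FinGraph => NearPaths G.graph k ∧ boxicity G.graph ≤ d)) ∧
    ∀ t : ℕ, 2 * d + 3 ≤ t →
      NPHardP (fun G : FinGraph => treewidth G.graph ≤ t ∧ boxicity G.graph ≤ d) :=
  fun d hd => ⟨Pool.Agent.KS6_79.BX.reduction d hd, Pool.Agent.KS6_79.BX.hard_near d hd,
    Pool.Agent.KS6_79.BX.hard_tw d hd⟩

end Pool.Agent.Results.MP_33ea09_lc.DimensionThree
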